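import Mathlib
import Pool.Agent.W829.UB.Defs

set_option autoImplicit false

open MeasureTheory Set ProbabilityTheory

namespace Pool.Agent.W880.UB

open Pool.Agent.W829.UB

/-- the box of radius `r` around `x` -/
noncomputable def bx (r : ℤ) (x : Site) : Finset Site :=
  Finset.Icc (x.1 - r) (x.1 + r) ×ˢ Finset.Icc (x.2 - r) (x.2 + r)

theorem mem_bx (r : ℤ) (x z : Site) : z ∈ bx r x ↔ |z.1 - x.1| ≤ r ∧ |z.2 - x.2| ≤ r := by
  rw [bx, Finset.mem_product, Finset.mem_Icc, Finset.mem_Icc, abs_le, abs_le]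
  constructor
  · rintro ⟨⟨h1, h2⟩, h3, h4⟩
    exact ⟨⟨by linarith, by linarith⟩, by linarith, by linarith⟩
  · rintro ⟨⟨h1, h2⟩, h3, h4⟩
    exact ⟨⟨by linarith, by linarith⟩, by linarith, by linarith⟩

/-- the event in terms of the coordinates of a finite set -/
def ev (U : Finset (Finset Site)) (n : ℕ) (x : Site) (B : Finset Site) : Set (B → Bool) :=
  {g | x ∉ infected U {z | ∃ h : z ∈ B, g ⟨z, h⟩ = true} n}

theorem late_eq (U : Finset (Finset Site)) (ρ : ℕ) (hR : Range U ρ) (n : ℕ) (x : Site) :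
    late U n x = (fun (ω : Site → Bool) (z : bx (ρ * n) x) => ω z) ⁻¹' ev U n x (bx (ρ * n) x) := by
  ext ω
  rw [late, mem_preimage, ev, Set.mem_ofPred_eq, Set.mem_ofPred_eq]
  apply not_congr
  apply hR
  intro z h1 h2
  have hz : z ∈ bx (ρ * n) x := (mem_bx _ _ _).2 ⟨h1, h2⟩
  rw [init, Set.mem_ofPred_eq, Set.mem_ofPred_eq]
  constructor
  · intro h
    exact ⟨hz, h⟩
  · rintro ⟨_, h⟩
    exact h

theorem ind (_hm : S_MEAS) (hs : S_SHIFT) : S_IND := by
  intro U ρ hR p n x hx
  have hdisj : Disjoint (bx (ρ * n) 0) (bx (ρ * n) x) := by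
    rw [Finset.disjoint_left]
    intro z h1 h2
    rw [mem_bx] at h1 h2
    have e1 : z.1 - (0 : Site).1 = z.1 := by simp
    have e2 : z.2 - (0 : Site).2 = z.2 := by simp
    rw [e1, e2] at h1
    have h3 : |x.1| ≤ 2 * (ρ * n) := by
      have : x.1 = z.1 - (z.1 - x.1) := by ring
      rw [this]
      exact (abs_sub _ _).trans (by linarith [h1.1, h2.1])
    have h4 : |x.2| ≤ 2 * (ρ * n) := by
      have : x.2 = z.2 - (z.2 - x.2) := by ring
      rw [this]
      exact (abs_sub _ _).trans (by linarith [h1.2, h2.2])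
    have h5 : max |x.1| |x.2| ≤ 2 * (ρ * n) := max_le h3 h4
    have h6 : 2 * (ρ : ℤ) * n = 2 * (ρ * n) := by ring
    rw [h6] at hx
    exact absurd hx (not_lt.2 h5)
  have hind : iIndepFun (fun (z : Site) (ω : Site → Bool) => ω z) (Perc p) :=
    iIndepFun_infinitePi (P := fun _ : Site => bern p) (X := fun _ b => b)
      (fun _ => measurable_id)
  have h2 := hind.indepFun_finset (bx (ρ * n) 0) (bx (ρ * n) x) hdisj
    (fun z => measurable_pi_apply z)
  have h3 := h2.measure_inter_preimage_eq_mul (ev U n 0 (bx (ρ * n) 0))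
    (ev U n x (bx (ρ * n) x)) (Set.toFinite _).measurableSet (Set.toFinite _).measurableSet
  rw [← late_eq U ρ hR n 0, ← late_eq U ρ hR n x, hs U p n x] at h3
  rw [h3, sq]

theorem bern_real (p : unitInterval) (b : Bool) :
    (bern p {b}).toReal = if b then (p : ℝ) else 1 - p := by
  have h0 : (0 : ℝ) ≤ p := p.2.1
  have h1 : (0 : ℝ) ≤ 1 - p := by linarith [p.2.2]
  cases b
  · simp [bern, h1]
  · simp [bern, h0]

theorem cont : S_CONT := by
  classical
  intro U ρ hR n
  have key : ∀ p : unitInterval, (Perc p (late U n 0)).toReal =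
      ∑ g ∈ (Set.toFinite (ev U n 0 (bx (ρ * n) 0))).toFinset,
        ∏ b : bx (ρ * n) 0, (if g b then (p : ℝ) else 1 - p) := by
    intro p
    have hmE : MeasurableSet (ev U n 0 (bx (ρ * n) 0)) := (Set.toFinite _).measurableSet
    have h1 : Perc p (late U n 0) =
        (Measure.pi fun _ : bx (ρ * n) 0 => bern p) (ev U n 0 (bx (ρ * n) 0)) := by
      rw [← Measure.infinitePi_map_restrict (μ := fun _ : Site => bern p),
        Measure.map_apply (by fun_prop) hmE, late_eq U ρ hR n 0]
      rfl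
    have h2 : (Measure.pi fun _ : bx (ρ * n) 0 => bern p) (ev U n 0 (bx (ρ * n) 0)) =
        ∑ g ∈ (Set.toFinite (ev U n 0 (bx (ρ * n) 0))).toFinset,
          (Measure.pi fun _ : bx (ρ * n) 0 => bern p) {g} := by
      rw [sum_measure_singleton, Set.Finite.coe_toFinset]
    rw [h1, h2, ENNReal.toReal_sum (fun g _ => measure_ne_top _ _)]
    refine Finset.sum_congr rfl fun g _ => ?_
    rw [Measure.pi_singleton, ENNReal.toReal_prod]
    exact Finset.prod_congr rfl fun b _ => bern_real p (g b)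
  have h3 : (fun p : unitInterval => (Perc p (late U n 0)).toReal) = fun p : unitInterval =>
      ∑ g ∈ (Set.toFinite (ev U n 0 (bx (ρ * n) 0))).toFinset,
        ∏ b : bx (ρ * n) 0, (if g b then (p : ℝ) else 1 - p) := funext key
  rw [h3]
  refine continuous_finsetSum _ fun g _ => continuous_finsetProd _ fun b _ => ?_
  by_cases h : g b
  · simp only [h, if_true]
    exact continuous_subtype_val
  · simp only [h]
    exact continuous_const.sub continuous_subtype_val

end Pool.Agent.W880.UB
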